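import Mathlib
import Pool.Agent.Lib.MP_cff1c1_al.Defs
import Pool.Agent.Lib.MP_cff1c1_al.Final

/-!
# MP_cff1c1_al : the soluble graph of `A_p`, `p ≡ 3 (mod 4)` prime, `p ≥ 11`

Full affirmative answer to Q1: for every prime `p ≥ 11` with `p ≡ 3 (mod 4)` the soluble graph of
the alternating group of degree `p` has diameter at least `4`.
-/

namespace Pool.Agent.Results.MP_cff1c1_al.DiameterFour

open Pool.Agent.Lib.MPcff1c1

/-- **Main result.**  For every prime `p ≥ 11` with `p ≡ 3 (mod 4)`, the soluble radical of `A_p`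
is trivial, the soluble graph of `A_p` is connected, and its diameter is at least `4`. -/
theorem result : ∀ p : ℕ, p.Prime → 11 ≤ p → p % 4 = 3 →
    solubleRadical (alternatingGroup (Fin p)) = ⊥ ∧
    (solubleGraph (alternatingGroup (Fin p))).Connected ∧
    4 ≤ (solubleGraph (alternatingGroup (Fin p))).diam := by
  intro p hp h11 h4
  have hf : Fact p.Prime := ⟨hp⟩
  refine ⟨?_, main h4 h11⟩
  apply solubleRadical_eq_bot
  rw [Fintype.card_fin]
  omega

end Pool.Agent.Results.MP_cff1c1_al.DiameterFour
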